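import Pool.Agent.H.MP_0f79e1_lc.A
set_option linter.style.longLine false
namespace Pool.Agent.Results.MP_5f3b23_lc.Yes
open Set Cardinal Pool.Agent.H.MP_0f79e1_lc

/-- Chang's conjecture `(l⁺, l) ↠ (ℵ₁, ℵ₀)`, in Skolem-function form. -/
def Chang (l : Cardinal.{0}) : Prop :=
  ∀ P : Set (K l), #P = l → ∀ F : ℕ → List (K l) → K l, ∃ x : Set (K l),
    (∀ n s, (∀ a ∈ s, a ∈ x) → F n s ∈ x) ∧ #x = ℵ₁ ∧ (x ∩ P).Countable

/-- `B` is a cofinal subset of `α`. -/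
def Cof {l : Cardinal.{0}} (B : Set (K l)) (α : K l) : Prop := B ⊆ Iio α ∧ IsLUB B α

/-- The set `A(d)`. -/
def A {l : Cardinal.{0}} (d : K l → K l → l.ord.ToType) : Set (K l) :=
  {α | ∀ B, Cof B α → ∃ η < α, ∃ B' ⊆ B, Cof B' α ∧ InjOn (d η) B'}

lemma dec {l : Cardinal.{0}} (hl : ℵ₀ ≤ l) (hc : l.ord.cof = ℵ₀) {β : Type} (s : Set β) (hs : #s ≤ l) :
    ∃ D : ℕ → Set β, (∀ n, #(D n) < l) ∧ ∀ a ∈ s, ∃ n, a ∈ D n := by
  obtain ⟨t, h1, h2⟩ := Order.exists_cof_eq l.ord.ToType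
  rw [Ordinal.cof_toType, hc] at h2
  obtain ⟨u, hu⟩ := (le_aleph0_iff_set_countable.1 h2.le).exists_eq_range
    (by rw [← nonempty_coe_sort, ← mk_ne_zero_iff, h2]; exact aleph0_ne_zero)
  obtain ⟨e⟩ := (Cardinal.le_def s l.ord.ToType).1 (by simpa using hs)
  refine ⟨fun n => Subtype.val '' (e ⁻¹' Iic (u n)), fun n => mk_image_le.trans_lt
    ((mk_preimage_of_injective _ _ e.injective).trans_lt ?_), fun a ha => ?_⟩
  · simpa using mk_Iic_lt (u n) (by simp) (by simpa using hl)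
  · obtain ⟨b, hb, h⟩ := h1 (e ⟨a, ha⟩)
    obtain ⟨n, rfl⟩ := hu ▸ hb
    exact ⟨n, ⟨a, ha⟩, h, rfl⟩

theorem result : ∀ l : Cardinal.{0}, l.IsSingular → l.IsStrongLimit → l.ord.cof = ℵ₀ → Chang l →
    ∀ d : K l → K l → l.ord.ToType,
      IsStationary ({α : K l | Order.cof (Iio α) ≠ l.ord.cof} \ A d) := by
  classical
  intro l hsg hs hc hC d C hcl
  have hl := hs.aleph0_le
  obtain ⟨P, -, hP⟩ := (le_mk_iff_exists_subset (c := l) (s := (Set.univ : Set (K l)))).1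
    (by simpa using Order.le_succ l)
  choose D hD hD' using fun ξ : K l => dec hl hc (Iic ξ) (kI hl ξ)
  obtain ⟨L, hL, hL'⟩ := dec hl hc (Set.univ : Set l.ord.ToType) (by simp)
  have c1 : ∀ ξ n m, Nonempty ((D ξ n → Option (L m)) ↪ P) := fun ξ n m => by
    rw [← Cardinal.le_def, hP]
    simp only [mk_pi, prod_const, lift_id, mk_option]
    have a := add_lt_of_lt hl (hL m) (one_lt_aleph0.trans_le hl)
    calc _ ≤ (2 ^ (#(L m) + 1)) ^ #(D ξ n) := power_le_power_right (cantor _).le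
      _ = 2 ^ ((#(L m) + 1) * #(D ξ n)) := power_mul.symm
      _ ≤ l := (hs.isStrongPrelimit (mul_lt_of_lt hl a (hD ξ n))).le
  have c2 : ∀ β : K l, Nonempty (Iic β ↪ P) := fun β => by rw [← Cardinal.le_def, hP]; exact kI hl β
  have c3 : ∀ γ : K l, ∃ δ ∈ C, γ < δ := fun γ => by
    obtain ⟨g, hg, -⟩ := gt hl γ γ
    obtain ⟨δ, h1, h2⟩ := hcl.isCofinal g
    exact ⟨δ, h1, hg.trans_le h2⟩
  choose nx n1 n2 using c3
  let g : ∀ ξ n m, K l → (D ξ n → Option (L m)) := fun ξ n m β η =>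
    if h : d η β ∈ L m then some ⟨_, h⟩ else none
  let F : ℕ → List (K l) → K l := fun k s => match s with
    | [γ] => nx γ
    | [ξ, β] => ((c1 ξ k.unpair.1 k.unpair.2).some (g ξ _ _ β)).1
    | [β, γ, _] => if h : γ ≤ β then ((c2 β).some ⟨γ, h⟩).1 else β
    | _ => nx (Ordinal.ToType.mk ⟨0, by simp [pos_iff_ne_zero]⟩)
  obtain ⟨x, hx, h1, h2⟩ := hC P hP F
  have x1 : ∀ γ ∈ x, nx γ ∈ x := fun γ h => hx 0 [γ] (by simpa using h)
  have x2 : ∀ ξ ∈ x, ∀ β ∈ x, ∀ n m, ((c1 ξ n m).some (g ξ n m β)).1 ∈ x := fun ξ h β h' n m => by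
    have := hx (Nat.pair n m) [ξ, β] (by simp [h, h'])
    simp only [F] at this
    rwa [Nat.unpair_pair] at this
  have x3 : ∀ β ∈ x, (x ∩ Iic β).Countable := fun β h => by
    refine MapsTo.countable_of_injOn (f := fun γ => F 0 [β, γ, β]) (fun γ hγ => ?_)
      (fun γ hγ γ' hγ' e => ?_) h2
    · refine ⟨hx 0 [β, γ, β] (by simp [h, hγ.1]), ?_⟩
      simp only [F, dif_pos (mem_Iic.1 hγ.2)]; exact Subtype.property _
    · simp only [F, dif_pos (mem_Iic.1 hγ.2), dif_pos (mem_Iic.1 hγ'.2)] at e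
      exact congrArg Subtype.val ((c2 β).some.injective (Subtype.ext e))
  have h1l : ℵ₁ ≤ l := by
    rw [← succ_aleph0, Order.succ_le_iff, ← hc]; exact hsg.cof_ord_lt
  obtain ⟨u, hu⟩ := bdd hl (h1.le.trans h1l)
  obtain ⟨α, k1, k2⟩ := (wellFounded_lt (α := K l)).has_min (upperBounds x) ⟨u, fun a h => (hu a h).le⟩
  have lub : IsLUB x α := ⟨k1, fun u hu => not_lt.1 (k2 u hu)⟩
  have xl : x ⊆ Iio α := fun γ h => (n2 γ).trans_le (k1 (x1 γ h))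
  have unc : ∀ B : Set (K l), B ⊆ Iio α → (∀ γ < α, ∃ b ∈ B, γ ≤ b) → ¬ B.Countable := by
    intro B b1 b2 hB
    have : ∀ b : B, ∃ β ∈ x, b.1 < β := fun b => (lt_isLUB_iff lub).1 (b1 b.2)
    choose f f1 f2 using this
    have := hB.to_subtype
    have : x.Countable := (countable_iUnion fun b => x3 _ (f1 b)).mono fun γ hγ => by
      obtain ⟨b, i, j⟩ := b2 γ (xl hγ)
      exact mem_iUnion.2 ⟨⟨b, i⟩, hγ, j.trans (f2 ⟨b, i⟩).le⟩
    exact (h1 ▸ this.le_aleph0 : ℵ₁ ≤ ℵ₀).not_gt aleph0_lt_aleph_one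
  have xn : x.Nonempty := by rw [← nonempty_coe_sort, ← mk_ne_zero_iff, h1]; exact (aleph_pos 1).ne'
  refine ⟨α, ⟨fun e => ?_, fun hA => ?_⟩, hcl.isLUB_mem (t := nx '' x) (by rintro _ ⟨γ, -, rfl⟩; exact n1 γ)
    (xn.image _) ⟨by rintro _ ⟨γ, h, rfl⟩; exact k1 (x1 γ h),
      fun b hb => lub.2 fun γ h => (n2 γ).le.trans (hb ⟨γ, h, rfl⟩)⟩⟩
  · obtain ⟨t, t1, t2⟩ := Order.exists_cof_eq (Iio α)
    rw [e, hc] at t2
    refine unc (Subtype.val '' t) (by rintro _ ⟨a, -, rfl⟩; exact a.2) (fun γ h => ?_)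
      ((le_aleph0_iff_set_countable.1 t2.le).image _)
    obtain ⟨b, i, j⟩ := t1 ⟨γ, h⟩
    exact ⟨b, ⟨b, i, rfl⟩, j⟩
  obtain ⟨η, hη, B, b1, b2, b3⟩ := hA x ⟨xl, lub⟩
  obtain ⟨ξ, i, j⟩ := (lt_isLUB_iff lub).1 hη
  obtain ⟨n, hn⟩ := hD' ξ η j.le
  refine unc B b2.1 (fun γ h => ((lt_isLUB_iff b2.2).1 h).imp fun _ y => ⟨y.1, y.2.le⟩) ?_
  refine (countable_iUnion fun m => (?_ : {β ∈ B | d η β ∈ L m}.Countable)).mono fun β hβ => ?_
  · refine MapsTo.countable_of_injOn (f := fun β => ((c1 ξ n m).some (g ξ n m β)).1)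
      (fun β hβ => mem_inter (x2 ξ i β (b1 hβ.1) n m) (Subtype.property _)) (fun β hβ β' hβ' e => b3 hβ.1 hβ'.1 ?_) h2
    have := congrFun ((c1 ξ n m).some.injective (Subtype.ext e)) ⟨η, hn⟩
    simpa [g, hβ.2, hβ'.2] using this
  · obtain ⟨m, hm⟩ := hL' (d η β) trivial
    exact mem_iUnion.2 ⟨m, hβ, hm⟩

end Pool.Agent.Results.MP_5f3b23_lc.Yes
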